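import Pool.Agent.Helper33.LD.WA

/-!
# Project LD, block WB1: increments of the martingale and their second moments
-/

set_option autoImplicit false

namespace Pool.Agent.Helper68.LD

open Set MeasureTheory Filter Topology
open Pool.Agent.Helper41.LD Pool.Agent.Helper33.LD

/-! ## Averages -/

theorem av_children {ψ : ℝ → ℝ} (hi : ∀ a b, IntervalIntegrable ψ volume a b) (a : ℝ) {ℓ : ℝ} (hℓ : 0 < ℓ) {B : ℕ}
    (hB : 1 ≤ B) : ∑ b ∈ Finset.range B, av ψ (a + b * (ℓ / B)) (ℓ / B) = B * av ψ a ℓ := by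
  have hB0 : (0:ℝ) < B := by exact_mod_cast hB
  unfold av
  rw [← Finset.sum_div]
  have h1 := intervalIntegral.sum_integral_adjacent_intervals (μ := volume)
    (f := ψ) (a := fun b : ℕ => a + b * (ℓ / B)) (n := B)
    (fun b _ => hi _ _)
  have h2 : ∑ b ∈ Finset.range B, ∫ x in (a + b * (ℓ / B))..(a + b * (ℓ / B) + ℓ / B), ψ x =
      ∫ x in a..(a + ℓ), ψ x := by
    have e1 : a + (0:ℕ) * (ℓ / B) = a := by simp
    have e2 : a + B * (ℓ / B) = a + ℓ := by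
      rw [mul_div_cancel₀ _ hB0.ne']
    rw [e1, e2] at h1
    rw [← h1]
    refine Finset.sum_congr rfl fun b _ => ?_
    congr 1
    push_cast
    ring
  rw [h2]
  field_simp

theorem av_sub_const {ψ : ℝ → ℝ} (hi : ∀ a b, IntervalIntegrable ψ volume a b) (m a : ℝ) {ℓ : ℝ} (hℓ : 0 < ℓ) :
    av (fun x => ψ x - m) a ℓ = av ψ a ℓ - m := by
  unfold av
  rw [intervalIntegral.integral_sub (hi _ _) intervalIntegrable_const, intervalIntegral.integral_const,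
    add_sub_cancel_left, smul_eq_mul]
  field_simp

theorem av_sq_le {φ : ℝ → ℝ} (hi : ∀ a b, IntervalIntegrable φ volume a b)
    (hi2 : ∀ a b, IntervalIntegrable (fun x => φ x ^ 2) volume a b) (a : ℝ) {ℓ : ℝ} (hℓ : 0 < ℓ) :
    av φ a ℓ ^ 2 ≤ av (fun x => φ x ^ 2) a ℓ := by
  set m := av φ a ℓ with hm
  have h0 : 0 ≤ ∫ x in a..(a + ℓ), (φ x - m) ^ 2 :=
    intervalIntegral.integral_nonneg (by linarith) fun x _ => sq_nonneg _
  have e : ∀ x, (φ x - m) ^ 2 = φ x ^ 2 - (2 * m * φ x - m ^ 2) := fun x => by ring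
  have h1 : ∫ x in a..(a + ℓ), (φ x - m) ^ 2 =
      (∫ x in a..(a + ℓ), φ x ^ 2) - (2 * m * (∫ x in a..(a + ℓ), φ x) - m ^ 2 * ℓ) := by
    simp only [e]
    rw [intervalIntegral.integral_sub (hi2 _ _) (((hi _ _).const_mul _).sub intervalIntegrable_const),
      intervalIntegral.integral_sub ((hi _ _).const_mul _) intervalIntegrable_const,
      intervalIntegral.integral_const_mul, intervalIntegral.integral_const, add_sub_cancel_left, smul_eq_mul]
    ring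
  have h2 : ∫ x in a..(a + ℓ), φ x = m * ℓ := by
    rw [hm]
    unfold av
    field_simp
  rw [h1, h2] at h0
  unfold av
  rw [le_div_iff₀ hℓ]
  nlinarith

/-- the averages over the children: second moment at most the variance -/
theorem sum_av_sub_sq_le {ψ : ℝ → ℝ} (hm : Measurable ψ) (hb : ∀ t, |ψ t| ≤ 1) (a : ℝ) {ℓ : ℝ} (hℓ : 0 < ℓ) {B : ℕ}
    (hB : 1 ≤ B) : ∑ b ∈ Finset.range B, (av ψ (a + b * (ℓ / B)) (ℓ / B) - av ψ a ℓ) ^ 2 ≤ B * var ψ a ℓ := by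
  have hB0 : (0:ℝ) < B := by exact_mod_cast hB
  have hi : ∀ a b, IntervalIntegrable ψ volume a b := ii_of_bdd hm hb
  set m := av ψ a ℓ with hmdef
  have hq : ∀ a b, IntervalIntegrable (fun x => (ψ x - m) ^ 2) volume a b := by
    intro a b
    refine (intervalIntegrable_const (c := ((1 + |m|) ^ 2 : ℝ))).mono_fun
      ((hm.sub measurable_const).pow_const 2).aestronglyMeasurable ?_
    refine Eventually.of_forall fun t => ?_
    have h1 : |ψ t - m| ≤ 1 + |m| := (abs_sub _ _).trans (by linarith [hb t])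
    show ‖(ψ t - m) ^ 2‖ ≤ ‖(1 + |m|) ^ 2‖
    rw [norm_pow, norm_pow, Real.norm_eq_abs, Real.norm_eq_abs]
    exact pow_le_pow_left₀ (abs_nonneg _) (h1.trans (le_abs_self _)) 2
  have hs : ∀ a b, IntervalIntegrable (fun x => ψ x - m) volume a b := fun a b => (hi a b).sub intervalIntegrable_const
  unfold var
  rw [← hmdef, ← av_children hq a hℓ hB]
  refine Finset.sum_le_sum fun b _ => ?_
  rw [← av_sub_const hi m _ (div_pos hℓ hB0)]
  exact av_sq_le hs hq _ (div_pos hℓ hB0)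

/-! ## `|haar k i| = ind k i` -/

theorem abs_haar_le_ind (k i : ℕ) (t : ℝ) : |haar k i t| ≤ ind k i t := by
  unfold haar ind
  have key : ∀ x : ℝ, (⌊(2:ℝ) ^ (k + 1) * x⌋ = ((2 * i : ℕ) : ℤ) ∨ ⌊(2:ℝ) ^ (k + 1) * x⌋ = ((2 * i + 1 : ℕ) : ℤ)) →
      ⌊(2:ℝ) ^ k * x⌋ = (i : ℤ) := by
    intro x hx
    rw [Int.floor_eq_iff]
    rcases hx with h | h
    · rw [Int.floor_eq_iff] at h
      push_cast at h ⊢
      rw [pow_succ] at h
      constructor
      · linarith [h.1]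
      · linarith [h.2]
    · rw [Int.floor_eq_iff] at h
      push_cast at h ⊢
      rw [pow_succ] at h
      constructor
      · linarith [h.1]
      · linarith [h.2]
  by_cases h1 : ⌊(2:ℝ) ^ (k + 1) * Int.fract t⌋ = ((2 * i : ℕ) : ℤ)
  · rw [if_pos h1, if_pos (key _ (Or.inl h1)), if_neg (by rw [h1]; push_cast; omega)]
    norm_num
  · by_cases h2 : ⌊(2:ℝ) ^ (k + 1) * Int.fract t⌋ = ((2 * i + 1 : ℕ) : ℤ)
    · rw [if_neg h1, if_pos h2, if_pos (key _ (Or.inr h2))]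
      norm_num
    · rw [if_neg h1, if_neg h2]
      simp only [sub_self, abs_zero]
      split_ifs <;> norm_num

variable {θ : ℝ} {c : ℕ → ℝ}

theorem ii_ind_u (k i j : ℕ) (a b : ℝ) : IntervalIntegrable (fun x => ind k i (u θ c j x)) volume a b := by
  refine ii_of_bdd ((measurable_ind k i).comp ?_) (fun t => ?_) a b
  · unfold u
    fun_prop
  · show |ind k i (u θ c j t)| ≤ 1
    rw [abs_of_nonneg (ind_nonneg k i _)]
    exact ind_le_one k i _

theorem abs_A_le_av_ind (k i j : ℕ) (a : ℝ) {ℓ : ℝ} (hℓ : 0 < ℓ) :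
    |A θ c k i j a ℓ| ≤ av (fun x => ind k i (u θ c j x)) a ℓ := by
  unfold A av
  rw [abs_div, abs_of_pos hℓ]
  refine div_le_div_of_nonneg_right ?_ hℓ.le
  refine (intervalIntegral.abs_integral_le_integral_abs (by linarith)).trans ?_
  exact intervalIntegral.integral_mono_on (by linarith) (ii_u k i j _ _).abs (ii_ind_u k i j _ _)
    fun x _ => abs_haar_le_ind k i _

theorem av_ind_le (hθ : 1 < θ) (k i : ℕ) {n j : ℕ} (hj : n ≤ j) {a ℓ : ℝ} (hw : 1 ≤ θ ^ n * ℓ) :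
    av (fun x => ind k i (u θ c j x)) a ℓ ≤ 2 * (1 / 2) ^ k := by
  have hℓ := len_pos hθ hw
  have hθ0 : 0 < θ := by linarith
  have hp : 0 < θ ^ j := pow_pos hθ0 j
  have h1 := int_ind_le hp k i (c j) a (a + ℓ) (by linarith)
  have e : ∀ x, u θ c j x = θ ^ j * x + c j := by
    intro x
    unfold u
    ring
  unfold av
  simp only [e]
  rw [div_le_iff₀ hℓ]
  refine h1.trans ?_
  rw [add_sub_cancel_left, div_le_iff₀ hp]
  have h2 : θ ^ n ≤ θ ^ j := pow_le_pow_right₀ hθ.le hj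
  have h3 : 1 ≤ θ ^ j * ℓ := hw.trans (mul_le_mul_of_nonneg_right h2 hℓ.le)
  have h4 : (0:ℝ) < (1 / 2) ^ k := by positivity
  have h5 : (θ ^ j * ℓ + 1) * (1 / 2) ^ k ≤ (2 * (θ ^ j * ℓ)) * (1 / 2) ^ k :=
    mul_le_mul_of_nonneg_right (by linarith) h4.le
  linarith

/-! ## The decomposition of the increments -/

/-- an increment of one average -/
noncomputable def dA (θ : ℝ) (c : ℕ → ℝ) (k i j : ℕ) (a ℓ : ℝ) (B b : ℕ) : ℝ :=
  A θ c k i j (a + b * (ℓ / B)) (ℓ / B) - A θ c k i j a ℓ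

/-- the difference of the tails -/
noncomputable def dT (θ : ℝ) (c : ℕ → ℝ) (k i m : ℕ) (a ℓ : ℝ) (B b : ℕ) : ℝ :=
  (M θ c k i (a + b * (ℓ / B)) (ℓ / B) - ∑ j ∈ Finset.range m, A θ c k i j (a + b * (ℓ / B)) (ℓ / B)) -
    (M θ c k i a ℓ - ∑ j ∈ Finset.range m, A θ c k i j a ℓ)

theorem child_mem {a ℓ : ℝ} (hℓ : 0 < ℓ) {B b : ℕ} (hb : b < B) :
    a ≤ a + b * (ℓ / B) ∧ 0 < ℓ / B ∧ a + b * (ℓ / B) + ℓ / B ≤ a + ℓ := by
  have hB0 : (0:ℝ) < B := by
    have : 0 < B := by omega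
    exact_mod_cast this
  have h1 : 0 < ℓ / B := div_pos hℓ hB0
  refine ⟨by nlinarith [(Nat.cast_nonneg b : (0:ℝ) ≤ b)], h1, ?_⟩
  have h2 : ((b:ℝ) + 1) ≤ B := by exact_mod_cast hb
  have h3 : ((b:ℝ) + 1) * (ℓ / B) ≤ B * (ℓ / B) := mul_le_mul_of_nonneg_right h2 h1.le
  have h4 : (B:ℝ) * (ℓ / B) = ℓ := mul_div_cancel₀ _ hB0.ne'
  linarith

theorem inc_eq (hθ : 1 < θ) {n L r K : ℕ} {a ℓ : ℝ} (hw : Win θ n ℓ) (h : NB θ c n r K a ℓ) {k : ℕ} (hk : k < K) (i : ℕ)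
    {B b : ℕ} (hb : b < B) :
    M θ c k i (a + b * (ℓ / B)) (ℓ / B) - M θ c k i a ℓ =
      ∑ j ∈ Finset.Ico (n - r) (n + L), dA θ c k i j a ℓ B b + dT θ c k i (n + L) a ℓ B b := by
  have hℓ := len_pos hθ hw.1
  obtain ⟨h1, h2, h3⟩ := child_mem (a := a) hℓ hb
  have hz : ∑ j ∈ Finset.range (n - r), dA θ c k i j a ℓ B b = 0 := by
    refine Finset.sum_eq_zero fun j hj => ?_
    have hj' : j + r < n := by
      have := Finset.mem_range.mp hj
      omega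
    unfold dA
    rw [A_const h hk i hj' h1 h2 h3, A_const h hk i hj' le_rfl hℓ le_rfl, sub_self]
  have hs : ∑ j ∈ Finset.range (n + L), dA θ c k i j a ℓ B b =
      ∑ j ∈ Finset.Ico (n - r) (n + L), dA θ c k i j a ℓ B b := by
    rw [← Finset.sum_range_add_sum_Ico _ (show n - r ≤ n + L by omega), hz, zero_add]
  rw [← hs]
  unfold dA dT
  rw [Finset.sum_sub_distrib]
  ring

theorem dT_le (hθ : 1 < θ) {n L : ℕ} {a ℓ : ℝ} (hw : Win θ n ℓ) (k i : ℕ) {B : ℕ} (hw' : Win θ (n + L) (ℓ / B)) (b : ℕ) :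
    |dT θ c k i (n + L) a ℓ B b| ≤ 2 * ((1 / 2) ^ k * (θ / (θ - 1))) := by
  unfold dT
  have h1 := M_tail (c := c) hθ k i (le_refl (n + L)) (a := a + b * (ℓ / B)) hw'.1
  rw [Nat.sub_self, pow_zero, mul_one] at h1
  have h2 := M_tail (c := c) hθ k i (Nat.le_add_right n L) (a := a) hw.1
  have hc : 0 ≤ θ / (θ - 1) := div_nonneg (by linarith) (by linarith)
  have h4 : (0:ℝ) < (1 / 2) ^ k := by positivity
  have h5 : θ⁻¹ ^ (n + L - n) ≤ 1 := pow_le_one₀ (inv_nonneg.2 (by linarith)) (inv_le_one_of_one_le₀ hθ.le)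
  have h6 : (1 / 2 : ℝ) ^ k * θ⁻¹ ^ (n + L - n) * (θ / (θ - 1)) ≤ (1 / 2) ^ k * (θ / (θ - 1)) :=
    mul_le_mul_of_nonneg_right (mul_le_of_le_one_right h4.le h5) hc
  refine (abs_sub _ _).trans ?_
  linarith

theorem dA_le (k i j : ℕ) {a ℓ : ℝ} (hℓ : 0 < ℓ) {B b : ℕ} (hb : b < B) : |dA θ c k i j a ℓ B b| ≤ 2 := by
  unfold dA
  obtain ⟨h1, h2, h3⟩ := child_mem (a := a) hℓ hb
  refine (abs_sub _ _).trans ?_
  linarith [A_le_one (θ := θ) (c := c) k i j (a := a + b * (ℓ / B)) h2, A_le_one (θ := θ) (c := c) k i j (a := a) hℓ]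

/-- increments -/
theorem M_inc (hθ : 1 < θ) {n L r K : ℕ} {a ℓ : ℝ} (hw : Win θ n ℓ) (h : NB θ c n r K a ℓ) {k : ℕ} (hk : k < K) (i : ℕ)
    {B : ℕ} (hB : 1 ≤ B) (hw' : Win θ (n + L) (ℓ / B)) {b : ℕ} (hb : b < B) :
    |M θ c k i (a + b * (ℓ / B)) (ℓ / B) - M θ c k i a ℓ| ≤ 2 * (L + r) + 2 * (θ / (θ - 1)) := by
  have hℓ := len_pos hθ hw.1
  rw [inc_eq hθ hw h hk i hb]
  have hc : 0 ≤ θ / (θ - 1) := div_nonneg (by linarith) (by linarith)
  have h5 : (1 / 2 : ℝ) ^ k ≤ 1 := pow_le_one₀ (by norm_num) (by norm_num)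
  have h1 := dT_le (c := c) hθ hw k i hw' b (a := a)
  have h2 : (1 / 2 : ℝ) ^ k * (θ / (θ - 1)) ≤ θ / (θ - 1) := by
    calc (1 / 2 : ℝ) ^ k * (θ / (θ - 1)) ≤ 1 * (θ / (θ - 1)) := mul_le_mul_of_nonneg_right h5 hc
      _ = _ := one_mul _
  have h3 : |∑ j ∈ Finset.Ico (n - r) (n + L), dA θ c k i j a ℓ B b| ≤ 2 * (L + r) := by
    refine (Finset.abs_sum_le_sum_abs _ _).trans ?_
    refine (Finset.sum_le_sum fun j _ => dA_le k i j hℓ hb).trans ?_
    rw [Finset.sum_const, Nat.card_Ico, nsmul_eq_mul]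
    have : ((n + L - (n - r) : ℕ) : ℝ) ≤ L + r := by
      have : n + L - (n - r) ≤ L + r := by omega
      exact_mod_cast this
    linarith
  exact (abs_add_le _ _).trans (add_le_add h3 (h1.trans (mul_le_mul_of_nonneg_left h2 (by norm_num))))

/-- second moments of the increments -/
theorem M_var (hθ : 1 < θ) {n L r K : ℕ} {a ℓ : ℝ} (hw : Win θ n ℓ) (h : NB θ c n r K a ℓ) {k : ℕ} (hk : k < K) (i : ℕ)
    {B : ℕ} (hB : 1 ≤ B) (hw' : Win θ (n + L) (ℓ / B)) (hL : θ / (θ - 1) ≤ L) (hL1 : 1 ≤ L) :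
    ∑ b ∈ Finset.range B, (M θ c k i (a + b * (ℓ / B)) (ℓ / B) - M θ c k i a ℓ) ^ 2 ≤
      B * (2 * W θ c n r k i a ℓ + 48 * L ^ 2 * (1 / 2) ^ k) := by
  have hℓ := len_pos hθ hw.1
  have hc : 0 ≤ θ / (θ - 1) := div_nonneg (by linarith) (by linarith)
  have hk0 : (0:ℝ) < (1 / 2) ^ k := by positivity
  have hk1 : (1 / 2 : ℝ) ^ k ≤ 1 := pow_le_one₀ (by norm_num) (by norm_num)
  have hB0 : (0:ℝ) < B := by exact_mod_cast hB
  have hL0 : (1:ℝ) ≤ L := by exact_mod_cast hL1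
  set P : ℕ → ℝ := fun b => ∑ j ∈ Finset.Ico (n - r) n, dA θ c k i j a ℓ B b with hP
  set R : ℕ → ℝ := fun b => ∑ j ∈ Finset.Ico n (n + L), dA θ c k i j a ℓ B b + dT θ c k i (n + L) a ℓ B b with hR
  have hdec : ∀ b ∈ Finset.range B, (M θ c k i (a + b * (ℓ / B)) (ℓ / B) - M θ c k i a ℓ) ^ 2 ≤ 2 * P b ^ 2 + 2 * R b ^ 2 := by
    intro b hb
    rw [inc_eq hθ hw h hk i (Finset.mem_range.mp hb)]
    have e : ∑ j ∈ Finset.Ico (n - r) (n + L), dA θ c k i j a ℓ B b + dT θ c k i (n + L) a ℓ B b = P b + R b := by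
      rw [hP, hR]
      simp only
      rw [← Finset.sum_Ico_consecutive _ (show n - r ≤ n by omega) (show n ≤ n + L by omega)]
      ring
    rw [e]
    nlinarith [sq_nonneg (P b - R b)]
  -- the pending part
  have hPs : ∑ b ∈ Finset.range B, P b ^ 2 ≤ B * W θ c n r k i a ℓ := by
    have h1 : ∀ b ∈ Finset.range B, P b ^ 2 ≤ r * ∑ j ∈ Finset.Ico (n - r) n, dA θ c k i j a ℓ B b ^ 2 := by
      intro b _
      have h2 : (∑ j ∈ Finset.Ico (n - r) n, dA θ c k i j a ℓ B b) ^ 2 ≤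
          ((Finset.Ico (n - r) n).card : ℝ) * ∑ j ∈ Finset.Ico (n - r) n, dA θ c k i j a ℓ B b ^ 2 :=
        sq_sum_le_card_mul_sum_sq
      refine h2.trans ?_
      have h3 : (0:ℝ) ≤ ∑ j ∈ Finset.Ico (n - r) n, dA θ c k i j a ℓ B b ^ 2 := Finset.sum_nonneg fun j _ => sq_nonneg _
      refine mul_le_mul_of_nonneg_right ?_ h3
      rw [Nat.card_Ico]
      have : n - (n - r) ≤ r := by omega
      exact_mod_cast this
    refine (Finset.sum_le_sum h1).trans ?_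
    rw [← Finset.mul_sum, Finset.sum_comm]
    unfold W
    rw [← mul_assoc (B:ℝ), mul_comm (B:ℝ), mul_assoc (r:ℝ), Finset.mul_sum (a := (B:ℝ))]
    have hr0 : (0:ℝ) ≤ r := Nat.cast_nonneg r
    refine mul_le_mul_of_nonneg_left ?_ hr0
    refine Finset.sum_le_sum fun j _ => ?_
    exact sum_av_sub_sq_le ((measurable_haar k i).comp (by unfold u; fun_prop)) (fun t => haar_abs k i _) a hℓ hB
  -- the new part
  have hRsup : ∀ b ∈ Finset.range B, |R b| ≤ 4 * L := by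
    intro b hb
    rw [hR]
    simp only
    have h1 := dT_le (c := c) hθ hw k i hw' b (a := a)
    have h2 : (1 / 2 : ℝ) ^ k * (θ / (θ - 1)) ≤ L := by
      calc (1 / 2 : ℝ) ^ k * (θ / (θ - 1)) ≤ 1 * (θ / (θ - 1)) := mul_le_mul_of_nonneg_right hk1 hc
        _ ≤ L := by rw [one_mul]; exact hL
    have h3 : |∑ j ∈ Finset.Ico n (n + L), dA θ c k i j a ℓ B b| ≤ 2 * L := by
      refine (Finset.abs_sum_le_sum_abs _ _).trans ?_
      refine (Finset.sum_le_sum fun j _ => dA_le k i j hℓ (Finset.mem_range.mp hb)).trans ?_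
      rw [Finset.sum_const, Nat.card_Ico, nsmul_eq_mul, Nat.add_sub_cancel_left]
      linarith
    refine (abs_add_le _ _).trans ?_
    linarith
  have hRsum : ∑ b ∈ Finset.range B, |R b| ≤ B * (6 * L * (1 / 2) ^ k) := by
    have h1 : ∀ b ∈ Finset.range B, |R b| ≤ ∑ j ∈ Finset.Ico n (n + L),
        (av (fun x => ind k i (u θ c j x)) (a + b * (ℓ / B)) (ℓ / B) + (1 / 2) ^ k) + 2 * (L * (1 / 2) ^ k) := by
      intro b hb
      obtain ⟨g1, g2, g3⟩ := child_mem (a := a) hℓ (Finset.mem_range.mp hb)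
      rw [hR]
      simp only
      have h1 := dT_le (c := c) hθ hw k i hw' b (a := a)
      have h2 : (1 / 2 : ℝ) ^ k * (θ / (θ - 1)) ≤ L * (1 / 2) ^ k := by
        rw [mul_comm]
        exact mul_le_mul_of_nonneg_right hL hk0.le
      have h3 : |∑ j ∈ Finset.Ico n (n + L), dA θ c k i j a ℓ B b| ≤ ∑ j ∈ Finset.Ico n (n + L),
        (av (fun x => ind k i (u θ c j x)) (a + b * (ℓ / B)) (ℓ / B) + (1 / 2) ^ k) := by
        refine (Finset.abs_sum_le_sum_abs _ _).trans (Finset.sum_le_sum fun j hj => ?_)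
        unfold dA
        have h4 := A_le (c := c) hθ k i (Finset.mem_Ico.mp hj).1 (a := a) hw.1
        have h5 : θ⁻¹ ^ (j - n) ≤ 1 := pow_le_one₀ (inv_nonneg.2 (by linarith)) (inv_le_one_of_one_le₀ hθ.le)
        have h6 : (1 / 2 : ℝ) ^ k * θ⁻¹ ^ (j - n) ≤ (1 / 2) ^ k := mul_le_of_le_one_right hk0.le h5
        refine (abs_sub _ _).trans ?_
        linarith [abs_A_le_av_ind (θ := θ) (c := c) k i j (a + b * (ℓ / B)) g2]
      refine (abs_add_le _ _).trans ?_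
      linarith
    refine (Finset.sum_le_sum h1).trans ?_
    rw [Finset.sum_add_distrib, Finset.sum_comm]
    have h7 : ∀ j ∈ Finset.Ico n (n + L), ∑ b ∈ Finset.range B,
        (av (fun x => ind k i (u θ c j x)) (a + b * (ℓ / B)) (ℓ / B) + (1 / 2) ^ k) ≤ B * (3 * (1 / 2) ^ k) := by
      intro j hj
      rw [Finset.sum_add_distrib, av_children (ii_ind_u k i j) a hℓ hB]
      have h8 := av_ind_le (c := c) hθ k i (Finset.mem_Ico.mp hj).1 (a := a) hw.1
      rw [Finset.sum_const, Finset.card_range, nsmul_eq_mul]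
      have := mul_le_mul_of_nonneg_left h8 hB0.le
      linarith
    refine (add_le_add_left (Finset.sum_le_sum h7) _).trans ?_
    rw [Finset.sum_const, Finset.sum_const, Finset.card_range, Nat.card_Ico, Nat.add_sub_cancel_left, nsmul_eq_mul, nsmul_eq_mul]
    have h9 : (0:ℝ) ≤ B * (L * (1 / 2) ^ k) := by positivity
    nlinarith
  have hRs : ∑ b ∈ Finset.range B, R b ^ 2 ≤ B * (24 * L ^ 2 * (1 / 2) ^ k) := by
    have h1 : ∀ b ∈ Finset.range B, R b ^ 2 ≤ 4 * L * |R b| := by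
      intro b hb
      rw [← sq_abs, pow_two]
      exact mul_le_mul_of_nonneg_right (hRsup b hb) (abs_nonneg _)
    refine (Finset.sum_le_sum h1).trans ?_
    rw [← Finset.mul_sum]
    have := mul_le_mul_of_nonneg_left hRsum (show (0:ℝ) ≤ 4 * L by positivity)
    refine this.trans (le_of_eq ?_)
    ring
  refine (Finset.sum_le_sum hdec).trans ?_
  rw [Finset.sum_add_distrib, ← Finset.mul_sum, ← Finset.mul_sum]
  have : (B:ℝ) * (2 * W θ c n r k i a ℓ + 48 * L ^ 2 * (1 / 2) ^ k) =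
      2 * (B * W θ c n r k i a ℓ) + 2 * (B * (24 * L ^ 2 * (1 / 2) ^ k)) := by ring
  rw [this]
  linarith

end Pool.Agent.Helper68.LD
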